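import Pool.Agent.W4.CF.Stms3

/-! CD project (helper4), part CD-FAC (helper930): the three factorisation types. -/

set_option autoImplicit false

namespace Pool.Agent.W930.CD

open NumberField Polynomial Pool.Agent.W4.CF

theorem aux {K : Type} [Field K] [NumberField K] (ρ : 𝓞 K) (g : ℤ[X])
    (h : eval₂ (algebraMap ℤ K) (algebraMap (𝓞 K) K ρ) g = 0) : aeval ρ g = 0 := by
  apply FaithfulSMul.algebraMap_injective (𝓞 K) K
  rw [map_zero, ← aeval_algebraMap_apply]
  exact h

theorem adj (g : ℤ[X]) (hg : g.Monic) (hirr : Irreducible (g.map (algebraMap ℤ ℚ)))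
    (hd : 2 ≤ g.natDegree) : ∃ (K : Type) (_ : Field K) (_ : NumberField K) (ρ : 𝓞 K),
      Module.finrank ℚ K = g.natDegree ∧ (∀ r : ℚ, (ρ : K) ≠ algebraMap ℚ K r) ∧
      aeval ρ g = 0 := by
  haveI : Fact (Irreducible (g.map (algebraMap ℤ ℚ))) := ⟨hirr⟩
  set f : ℚ[X] := g.map (algebraMap ℤ ℚ) with hf
  have hroot : eval₂ (algebraMap ℤ (AdjoinRoot f)) (AdjoinRoot.root f) g = 0 := by
    have h1 := AdjoinRoot.eval₂_root f
    rw [hf, eval₂_map, ← hf] at h1
    have h2 : (AdjoinRoot.of f).comp (algebraMap ℤ ℚ) = algebraMap ℤ (AdjoinRoot f) :=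
      RingHom.ext_int _ _
    rwa [h2] at h1
  have hint : AdjoinRoot.root f ∈ integralClosure ℤ (AdjoinRoot f) := ⟨g, hg, hroot⟩
  refine ⟨AdjoinRoot f, inferInstance, inferInstance, ⟨AdjoinRoot.root f, hint⟩, ?_, ?_, ?_⟩
  · have h := (AdjoinRoot.powerBasis hirr.ne_zero).finrank
    rw [AdjoinRoot.powerBasis_dim, hg.natDegree_map] at h
    convert! h
  · intro r hr
    have h1 := AdjoinRoot.eval₂_root f
    have h2 : AdjoinRoot.root f = AdjoinRoot.of f r := by
      have h3 : AdjoinRoot.root f = algebraMap ℚ (AdjoinRoot f) r := hr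
      rw [h3]
      rw [eq_ratCast, eq_ratCast]
    rw [h2, eval₂_at_apply] at h1
    have h4 : f.eval r = 0 := (AdjoinRoot.of f).injective (by rw [h1, map_zero])
    have h5 := degree_eq_one_of_irreducible_of_root hirr h4
    rw [degree_eq_natDegree hirr.ne_zero, hf, hg.natDegree_map] at h5
    have h6 : g.natDegree = 1 := by exact_mod_cast h5
    omega
  · exact aux _ g hroot

theorem t_FAC : S_FAC := by
  intro A B hAB
  set f : ℤ[X] := X ^ 3 - C A * X - C B with hf
  have hfd : f.natDegree = 3 := by rw [hf]; compute_degree!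
  have hfm : f.Monic := by rw [hf]; monicity!
  by_cases h : Irreducible f
  · left
    have h1 := (hfm.irreducible_iff_irreducible_map_fraction_map (K := ℚ)).1 h
    obtain ⟨K, i1, i2, ρ, h2, h3, h4⟩ := adj f hfm h1 (by omega)
    refine ⟨K, i1, i2, ρ, by rw [h2, hfd], h3, ?_⟩
    rw [hf] at h4
    simp only [map_sub, map_mul, map_pow, aeval_X, eq_intCast, map_intCast] at h4
    linear_combination h4
  · right
    rw [hfm.irreducible_iff_roots_eq_zero_of_degree_le_three (by omega) (by omega)] at h
    obtain ⟨r, hr⟩ := Multiset.exists_mem_of_ne_zero h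
    rw [mem_roots hfm.ne_zero, IsRoot.def, hf] at hr
    simp only [eval_sub, eval_mul, eval_pow, eval_X, eval_C] at hr
    have hB : B = r ^ 3 - A * r := by linarith
    set g : ℤ[X] := X ^ 2 + C r * X + C (r ^ 2 - A) with hg
    have hgd : g.natDegree = 2 := by rw [hg]; compute_degree!
    have hgm : g.Monic := by rw [hg]; monicity!
    by_cases h' : Irreducible g
    · left
      have h1 := (hgm.irreducible_iff_irreducible_map_fraction_map (K := ℚ)).1 h'
      obtain ⟨K, i1, i2, ρ, h2, h3, h4⟩ := adj g hgm h1 (by omega)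
      refine ⟨K, i1, i2, ρ, r, ⟨by rw [h2, hgd], h3, ?_⟩, hB⟩
      rw [hg] at h4
      simp only [map_add, map_sub, map_mul, map_pow, aeval_X, eq_intCast, map_intCast] at h4
      linear_combination h4
    · right
      rw [hgm.irreducible_iff_roots_eq_zero_of_degree_le_three (by omega) (by omega)] at h'
      obtain ⟨s, hs⟩ := Multiset.exists_mem_of_ne_zero h'
      rw [mem_roots hgm.ne_zero, IsRoot.def, hg] at hs
      simp only [eval_add, eval_mul, eval_pow, eval_X, eval_C] at hs
      have hA : A = s ^ 2 + r * s + r ^ 2 := by linarith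
      have hdisc : 4 * A ^ 3 - 27 * B ^ 2 =
          ((r - s) * (r - (-r - s)) * (s - (-r - s))) ^ 2 := by
        rw [hB, hA]; ring
      rw [hdisc] at hAB
      refine ⟨r, s, -r - s, ?_, ?_, ?_, by ring, by rw [hA]; ring, by rw [hB, hA]; ring⟩
      · intro h1
        apply hAB
        rw [h1]; ring
      · intro h1
        apply hAB
        have : r - (-r - s) = 0 := by linarith
        rw [this]; ring
      · intro h1
        apply hAB
        have : s - (-r - s) = 0 := by linarith
        rw [this]; ring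

end Pool.Agent.W930.CD
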